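import Pool.Agent.Helper46.NU.Defs
import Pool.Agent.Helper46.NU.Model
import Pool.Agent.Helper97.Ku.RO

/-!
# MP_4137ca_lc: no countably generated sigma-algebra contains all analytic sets (definitions)

The forcing: countable support product of perfect set forcings, presented by the monoid `Mp` of
all injective 1-Lipschitz maps of the Cantor space into itself. A condition `p : Cnd K` is a family
of such maps, equal to the identity outside a countable set of coordinates, and `q ≤ p` means
`q = p * g` for some `g`. A condition stands for the closed set `p.rg`, its range on `K → Rl`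
(a product of perfect sets).
-/

open MeasureTheory Filter Topology Set

noncomputable section

namespace SA

open Pool.Agent.Helper97.Ku

/-- The Cantor space. -/
abbrev Rl : Type := ℕ → Bool

/-- `x` and `y` agree below `n`. -/
def EqB (n : ℕ) (x y : Rl) : Prop := ∀ i, i < n → x i = y i

/-- Injective 1-Lipschitz maps of the Cantor space. -/
@[ext]
structure Mp : Type where
  f : Rl → Rl
  lip : ∀ n x y, EqB n x y → EqB n (f x) (f y)
  inj : Function.Injective f

instance : Mul Mp := ⟨fun g h => ⟨fun x => g.f (h.f x),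
  fun n x y hxy => g.lip n _ _ (h.lip n x y hxy), fun x y hxy => h.inj (g.inj hxy)⟩⟩

instance : One Mp := ⟨⟨fun x => x, fun _ _ _ h => h, fun _ _ h => h⟩⟩

theorem Mp.mul_f (g h : Mp) (x : Rl) : (g * h).f x = g.f (h.f x) := rfl

theorem Mp.one_f (x : Rl) : (1 : Mp).f x = x := rfl

instance : Monoid Mp where
  mul_assoc _ _ _ := rfl
  one_mul _ := rfl
  mul_one _ := rfl

/-- The map `x ↦ (s 0, ..., s (n-1), x 0, x 1, ...)`. -/
def cn (n : ℕ) (s : Rl) : Mp where
  f x := fun i => if i < n then s i else x (i - n)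
  lip k x y h := fun i hi => by
    by_cases h1 : i < n
    · simp [h1]
    · simp only [h1, if_false]
      exact h _ (by omega)
  inj x y h := by
    funext i
    have h1 := congrFun h (i + n)
    simpa using h1

/-- Deleting the first `n` entries. -/
def dr (n : ℕ) (x : Rl) : Rl := fun i => x (i + n)

/-- Even and odd parts. -/
def ev (x : Rl) : Rl := fun i => x (2 * i)

def od (x : Rl) : Rl := fun i => x (2 * i + 1)

/-- Interleaving `u` and `v`, as a map of `v`. -/
def jn (u : Rl) : Mp where
  f v := fun i => if i % 2 = 0 then u (i / 2) else v (i / 2)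
  lip n x y h := fun i hi => by
    by_cases h1 : i % 2 = 0
    · simp [h1]
    · simp only [h1, if_false]
      exact h _ (by omega)
  inj x y h := by
    funext i
    have h1 := congrFun h (2 * i + 1)
    have h2 : (2 * i + 1) % 2 = 1 := by omega
    have h3 : (2 * i + 1) / 2 = i := by omega
    simpa [h2, h3] using h1

/-- Conditions. -/
@[ext]
structure Cnd (K : Type) : Type where
  m : K → Mp
  ct : {ξ | m ξ ≠ 1}.Countable

variable {K : Type}

instance : Mul (Cnd K) := ⟨fun p q => ⟨fun ξ => p.m ξ * q.m ξ, by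
  refine (p.ct.union q.ct).mono fun ξ h => ?_
  by_contra hc
  simp only [mem_union, mem_ofPred_eq, not_or, not_not] at hc
  exact h (by simp [hc.1, hc.2])⟩⟩

instance : One (Cnd K) := ⟨⟨fun _ => 1, by simp⟩⟩

theorem Cnd.mul_m (p q : Cnd K) (ξ : K) : (p * q).m ξ = p.m ξ * q.m ξ := rfl

theorem Cnd.one_m (ξ : K) : (1 : Cnd K).m ξ = 1 := rfl

instance : Monoid (Cnd K) where
  mul_assoc _ _ _ := rfl
  one_mul _ := rfl
  mul_one _ := rfl

instance : Preorder (Cnd K) where
  le q p := ∃ g, q = p * g
  le_refl p := ⟨1, (mul_one p).symm⟩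
  le_trans r q p := by
    rintro ⟨g, rfl⟩ ⟨h, rfl⟩
    exact ⟨h * g, by rw [mul_assoc]⟩

theorem Cnd.le_def {q p : Cnd K} : q ≤ p ↔ ∃ g, q = p * g := Iff.rfl

theorem Cnd.mul_le (p g : Cnd K) : p * g ≤ p := ⟨g, rfl⟩

/-- The action on the points. -/
def Cnd.ac (p : Cnd K) (z : K → Rl) : K → Rl := fun ξ => (p.m ξ).f (z ξ)

theorem Cnd.mul_ac (p q : Cnd K) (z : K → Rl) : (p * q).ac z = p.ac (q.ac z) := rfl

/-- The set of points described by a condition. -/
def Cnd.rg (p : Cnd K) : Set (K → Rl) := Set.range p.ac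

theorem Cnd.rg_mono {p q : Cnd K} (h : q ≤ p) : q.rg ⊆ p.rg := by
  obtain ⟨g, rfl⟩ := h
  rintro _ ⟨z, rfl⟩
  exact ⟨g.ac z, rfl⟩

open Classical in
/-- The box: the coordinates `ξ ∈ F` start with the first `n` entries of `s ξ`. -/
def box (F : Finset K) (n : ℕ) (s : K → Rl) : Cnd K where
  m ξ := if ξ ∈ F then cn n (s ξ) else 1
  ct := by
    refine F.countable_toSet.mono fun ξ h => ?_
    by_contra hc
    simp only [Finset.mem_coe] at hc
    exact h (by simp [hc])

open Classical in
/-- The map which is `h` on the cone of `s` and the identity elsewhere. -/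
def ins (n : ℕ) (s : Rl) (h : Mp) : Mp where
  f x := if EqB n s x then (cn n s).f (h.f (dr n x)) else x
  lip k x y hxy := by
    intro i hi
    have hx : ∀ z : Rl, i < n →
        (if EqB n s z then (cn n s).f (h.f (dr n z)) else z) i = z i := by
      intro z hin
      by_cases hz : EqB n s z
      · simp only [hz, if_true, cn, hin]
        exact hz i hin
      · simp [hz]
    by_cases hin : i < n
    · rw [hx _ hin, hx _ hin]
      exact hxy i hi
    · have h1 : EqB n s x ↔ EqB n s y := by
        constructor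
        · intro h2 j hj; rw [h2 j hj]; exact hxy j (by omega)
        · intro h2 j hj; rw [h2 j hj]; exact (hxy j (by omega)).symm
      by_cases h2 : EqB n s x
      · simp only [h2, h1.mp h2, if_true, cn, hin, if_false]
        exact h.lip (k - n) _ _ (fun l hl => hxy (l + n) (by omega)) (i - n) (by omega)
      · have h3 : ¬ EqB n s y := fun h3 => h2 (h1.mpr h3)
        simp only [h2, h3, if_false]
        exact hxy i hi
  inj x y hxy := by
    have hE : ∀ z : Rl, EqB n s z → EqB n s ((cn n s).f (h.f (dr n z))) := by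
      intro z _ i hi
      simp [cn, hi]
    have hR : ∀ z : Rl, EqB n s z → (cn n s).f (dr n z) = z := by
      intro z hz
      funext i
      by_cases hi : i < n
      · simp only [cn, hi, if_true]; exact hz i hi
      · simp only [cn, hi, if_false, dr]
        congr 1; omega
    by_cases h1 : EqB n s x
    · by_cases h2 : EqB n s y
      · simp only [h1, h2, if_true] at hxy
        have h3 := h.inj ((cn n s).inj hxy)
        rw [← hR x h1, ← hR y h2, h3]
      · simp only [h1, h2, if_true, if_false] at hxy
        exact absurd (hxy ▸ hE x h1) h2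
    · by_cases h2 : EqB n s y
      · simp only [h1, h2, if_true, if_false] at hxy
        exact absurd (hxy ▸ hE y h2) h1
      · simp only [h1, h2, if_false] at hxy
        exact hxy

open Classical in
/-- The condition `h` inserted in a box. -/
def am (F : Finset K) (n : ℕ) (s : K → Rl) (h : Cnd K) : Cnd K where
  m ξ := if ξ ∈ F then ins n (s ξ) (h.m ξ) else h.m ξ
  ct := by
    refine (F.countable_toSet.union h.ct).mono fun ξ hξ => ?_
    by_contra hc
    simp only [Finset.mem_coe, mem_union, mem_ofPred_eq, not_or, not_not] at hc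
    exact hξ (by simp [hc.1, hc.2])

/-- Classes of conditions closed under the operations used in fusions. -/
structure Adm (G : Set (Cnd K)) : Prop where
  one : (1 : Cnd K) ∈ G
  mul : ∀ g h, g ∈ G → h ∈ G → g * h ∈ G
  box : ∀ F n s, box F n s ∈ G
  am : ∀ F n s h, h ∈ G → am F n s h ∈ G

/-! ### The algebra -/

/-- The Boolean value of a set of points. -/
def ee (B : Set (K → Rl)) : RO (Cnd K) := RO.cl {p | p.rg ⊆ B}

/-- The principal element. -/
def pri (p : Cnd K) : RO (Cnd K) := RO.cl {q | q ≤ p}

/-- The generic reals. -/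
def gx (ξ : K) : ℕ → RO (Cnd K) := fun n => ee {z | z ξ n = true}

/-! ### Analytic sets -/

/-- The set of codes. -/
abbrev Cd : Type := Set (Finset ℕ × Finset ℕ)

/-- The pair `(s, t)` is an initial segment of `(x, y)` of length `m`. -/
def Hit (s t : Finset ℕ) (m : ℕ) (x y : Rl) : Prop :=
  NU.LastN s m ∧ NU.LastN t m ∧ (∀ i < m, (i ∈ s ↔ x i = true)) ∧ ∀ i < m, (i ∈ t ↔ y i = true)

/-- The `G_δ` set coded by `T`. -/
def GT (T : Cd) : Set (Rl × Rl) :=
  {z | ∀ n : ℕ, ∃ m, n < m ∧ ∃ s t, (s, t) ∈ T ∧ Hit s t m z.1 z.2}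

/-- The analytic set coded by `T`. -/
def PT (T : Cd) : Set Rl := {x | ∃ y, (x, y) ∈ GT T}

/-- The code given by a point. -/
def tau (c : Rl) : Cd := {z | c (Encodable.encode z) = true}

section Val

variable {L : Type} [CompleteBooleanAlgebra L]

/-- `a` or its complement. -/
def bit (a : L) (v : Prop) [Decidable v] : L := if v then a else aᶜ

/-- The real with the name `a` agrees with `s` below `m`. -/
def agr (a : ℕ → L) (s : Finset ℕ) (m : ℕ) : L := ⨅ i : Fin m, bit (a i) ((i : ℕ) ∈ s)

open Classical in
/-- The pair of the reals with the names `a`, `b` is in the set coded by `T`. -/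
def gtV (T : Cd) (a b : ℕ → L) : L :=
  ⨅ n : ℕ, ⨆ m : ℕ, ⨆ _ : n < m, ⨆ s : Finset ℕ, ⨆ t : Finset ℕ,
    ⨆ _ : (s, t) ∈ T ∧ NU.LastN s m ∧ NU.LastN t m, (agr a s m ⊓ agr b t m)

/-- The real with the name `a` is in the analytic set coded by `T`. -/
def anV (T : Cd) (a : ℕ → L) : L := ⨆ b : ℕ → L, gtV T a b

/-- `sv v` is the value of: a set of reals to which the generic reals `ξ` belong with the values
`v ξ` is in a certain sigma-algebra `𝒮`; the sets of a given sequence, to which `ξ` belongs with
the values `w ξ n`, are in `𝒮`. -/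
structure SigV {K : Type} (w : K → ℕ → L) (sv : (K → L) → L) : Prop where
  ext : ∀ v v' : K → L, (⨅ ξ, NU.iffV (v ξ) (v' ξ)) ⊓ sv v ≤ sv v'
  seq : ∀ n, sv (fun ξ => w ξ n) = ⊤
  compl : ∀ v, sv v ≤ sv (fun ξ => (v ξ)ᶜ)
  union : ∀ v : ℕ → K → L, (⨅ n, sv (v n)) ≤ sv (fun ξ => ⨆ n, v n ξ)

end Val

end SA
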