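import Pool.Agent.Helper79.SA.Defs

/-!
# MP_4137ca_lc: goals of part I (the forcing, combinatorics and descriptive set theory)
-/

open MeasureTheory Filter Topology Set
open scoped Cardinal

noncomputable section

namespace SA

open Pool.Agent.Helper97.Ku

/-! ### Boxes and fusion -/

/-- Boxes. -/
def G_BOX : Prop := ∀ (K : Type) (F : Finset K) (n : ℕ),
  {c : Cnd K | ∃ s, c = box F n s}.Finite ∧
  (∀ s s' : K → Rl, (∀ ξ ∈ F, EqB n (s ξ) (s' ξ)) → box F n s = box F n s') ∧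
  (∀ (g : Cnd K) (s : K → Rl), ∃ g', g * box F n s = box F n (g.ac s) * g') ∧
  (∀ (s : K → Rl) (z : K → Rl), z ∈ (box F n s).rg ↔ ∀ ξ ∈ F, EqB n (s ξ) (z ξ)) ∧
  (∀ (s : K → Rl) (h : Cnd K), am F n s h * box F n s = box F n s * h) ∧
  (∀ (s : K → Rl) (h : Cnd K) (ξ : K) (x : Rl), ξ ∈ F → EqB n (((am F n s h).m ξ).f x) x)

/-- Pieces of a condition. -/
def G_PCS : Prop := ∀ (K : Type) (q : Cnd K) (F : Finset K) (n : ℕ),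
  {c : Cnd K | ∃ s, c = q * box F n s}.Finite ∧
  q.rg = ⋃ s, (q * box F n s).rg ∧
  (∀ (s s' z : K → Rl), z ∈ (q * box F n s).rg → z ∈ (q * box F n s').rg →
    q * box F n s = q * box F n s') ∧
  (∀ a : RO (Cnd K), (∀ s, q * box F n s ∈ a) → q ∈ a) ∧
  MeasurableSet q.rg

/-- The fusion lemma. -/
def G_FUS : Prop := ∀ (K : Type) [Nonempty K] (G : Set (Cnd K)), Adm G →
  ∀ D : ℕ → Set (Cnd K), (∀ n g, g ∈ G → ∃ h ∈ G, g * h ∈ D n) →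
    (∀ n g h, g ∈ D n → g * h ∈ D n) →
    ∃ g : Cnd K, ∀ n, ∃ (F : Finset K) (k : ℕ), ∀ s, g * box F k s ∈ D n

/-- Fusion below a condition. -/
def G_FUP : Prop := ∀ (K : Type) [Nonempty K] (p : Cnd K) (D : ℕ → Set (Cnd K)),
  (∀ n r, r ≤ p → ∃ r', r' ≤ r ∧ r' ∈ D n) → (∀ n r r', r ∈ D n → r' ≤ r → r' ∈ D n) →
  ∃ q, q ≤ p ∧ ∃ (F : ℕ → Finset K) (k : ℕ → ℕ), ∀ n s, q * box (F n) (k n) s ∈ D n

/-! ### The homomorphism `ee` -/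

/-- Measurable sets are decided. -/
def G_DEC : Prop := ∀ (K : Type) [Nonempty K] (B : Set (K → Rl)), MeasurableSet B →
  ∀ p : Cnd K, ∃ q, q ≤ p ∧ (q.rg ⊆ B ∨ q.rg ⊆ Bᶜ)

/-- `ee` is a `σ`-homomorphism. -/
def G_EH : Prop := ∀ (K : Type) [Nonempty K],
  (∀ (c : Cnd K) (B : Set (K → Rl)), c.rg ⊆ B → c ∈ ee B) ∧
  (∀ (c : Cnd K) (B : Set (K → Rl)), c ∈ ee B → ∃ c', c' ≤ c ∧ c'.rg ⊆ B) ∧
  (∀ (c : Cnd K) (B : Set (K → Rl)), c.rg ⊆ Bᶜ → c ∈ (ee B)ᶜ) ∧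
  (∀ (c : Cnd K) (B C : Set (K → Rl)), (∀ z ∈ c.rg, (z ∈ B ↔ z ∈ C)) →
    c ∈ NU.iffV (ee B) (ee C)) ∧
  (ee Set.univ : RO (Cnd K)) = ⊤ ∧ (ee ∅ : RO (Cnd K)) = ⊥ ∧
  (∀ B C : Set (K → Rl), ee (B ∩ C) = ee B ⊓ ee C) ∧
  (∀ B : Set (K → Rl), MeasurableSet B → ee Bᶜ = (ee B)ᶜ) ∧
  (∀ (ι : Type) [Countable ι] (B : ι → Set (K → Rl)), ee (⋂ i, B i) = ⨅ i, ee (B i)) ∧
  (∀ (ι : Type) [Countable ι] (B : ι → Set (K → Rl)), (∀ i, MeasurableSet (B i)) →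
    ee (⋃ i, B i) = ⨆ i, ee (B i))

/-- Continuous reading of names. -/
def G_RD : Prop := ∀ (K : Type) [Nonempty K] (w : ℕ → RO (Cnd K)) (p : Cnd K),
  ∃ q, q ≤ p ∧ ∃ h : (K → Rl) → Rl, Measurable h ∧
    ∀ n, q ∈ NU.iffV (w n) (ee {z | h z n = true})

/-- Countable supports of measurable functions. -/
def G_SUP : Prop := ∀ (K : Type) (h : (K → Rl) → Rl), Measurable h →
  ∃ b : Set K, b.Countable ∧ ∀ z z' : K → Rl, (∀ ξ ∈ b, z ξ = z' ξ) → h z = h z'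

/-! ### Category -/

/-- Comeager sets contain products of perfect sets. -/
def G_PCM : Prop := ∀ A : Set (ℕ → Rl), A ∈ residual (ℕ → Rl) → ∃ g : Cnd ℕ, g.rg ⊆ A

/-- Borel choice between a set and its complement. -/
def G_SPL : Prop := ∀ B : Set (Rl × (ℕ → Rl)), MeasurableSet B → ∃ D : Set Rl, MeasurableSet D ∧
  (∀ u ∈ D, ∃ g : Cnd ℕ, ∀ y ∈ g.rg, (u, y) ∈ B) ∧
  (∀ u, u ∉ D → ∃ g : Cnd ℕ, ∀ y ∈ g.rg, (u, y) ∉ B)

/-- Pulling back a measurable set. -/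
def G_PUL : Prop := ∀ (K : Type) [Infinite K] (q : Cnd K) (ξ : K) (Z : Set (K → Rl)),
  MeasurableSet Z → ∃ B : Set (Rl × (ℕ → Rl)), MeasurableSet B ∧
    ∀ (u : Rl) (g : Cnd ℕ), ∃ r, r ≤ q ∧
      (∀ z ∈ r.rg, ∃ v, z ξ = (q.m ξ).f ((jn u).f v)) ∧
      ((∀ y ∈ g.rg, (u, y) ∈ B) → r.rg ⊆ Z) ∧ ((∀ y ∈ g.rg, (u, y) ∉ B) → r.rg ⊆ Zᶜ)

/-! ### Analytic sets -/

/-- Every measurable set is coded. -/
def G_UNI : Prop := ∀ D : Set Rl, MeasurableSet D → ∃ c : Rl, PT (tau c) = D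

/-- Every `G_δ` set is coded. -/
def G_GD : Prop := ∀ G : Set (Rl × Rl), IsGδ G → ∃ T : Cd, GT T = G

/-- The image of the diagonal of the universal analytic set. -/
def G_TT : Prop := ∀ P : Mp, ∃ T : Cd,
  (∀ x ∈ PT T, ∃ w, P.f w = x ∧ ev w ∈ PT (tau (ev w))) ∧
  ∀ w y : Rl, (ev w, y) ∈ GT (tau (ev w)) → (P.f w, (jn w).f y) ∈ GT T

/-- Boolean value of membership in a coded `G_δ` set. -/
def G_GTV : Prop := ∀ (K : Type) [Nonempty K] (T : Cd) (h h' : (K → Rl) → Rl), Measurable h →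
  Measurable h' → (MeasurableSet {z | (h z, h' z) ∈ GT T} ∧
    gtV T (fun n => (ee {z | h z n = true} : RO (Cnd K))) (fun n => ee {z | h' z n = true}) =
      ee {z | (h z, h' z) ∈ GT T})

/-- `gtV` is extensional. -/
def G_GTX : Prop := ∀ (L : Type) [CompleteBooleanAlgebra L] (T : Cd) (a b a' b' : ℕ → L),
  (⨅ n, NU.iffV (a n) (a' n)) ⊓ (⨅ n, NU.iffV (b n) (b' n)) ⊓ gtV T a b ≤ gtV T a' b'

/-- Forcing that a generic real is not in the coded analytic set. -/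
def G_AN0 : Prop := ∀ (K : Type) [Nonempty K] (T : Cd) (ξ : K) (r : Cnd K),
  (∀ z ∈ r.rg, z ξ ∉ PT T) → r ∈ (anV T (gx ξ))ᶜ

/-- Forcing that a generic real is in the coded analytic set. -/
def G_AN1 : Prop := ∀ (K : Type) [Nonempty K] (T : Cd) (ξ : K) (r : Cnd K)
  (h : (K → Rl) → Rl), Measurable h → (∀ z ∈ r.rg, (z ξ, h z) ∈ GT T) → r ∈ anV T (gx ξ)

/-! ### Closing off -/

/-- Closure under countable operations. -/
def G_CLO : Prop := ∀ (K T : Type) (r0 : Set K) (F : (ℕ → Option K) → T → ℕ → K),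
  #T ≤ 𝔠 → r0.Countable → ∃ b : Set K, r0 ⊆ b ∧ #b ≤ 𝔠 ∧
    ∀ ρ : ℕ → Option K, (∀ k c, ρ k = some c → c ∈ b) → ∀ t n, F ρ t n ∈ b

/-- Homogeneous families (in place of the Delta system lemma). -/
def G_CO : Prop := ∀ (K T : Type), #K = Order.succ 𝔠 → #T ≤ 𝔠 →
  ∀ (io : K → ℕ → K) (t : K → T) (r0 : Set K), r0.Countable →
  (∀ ξ, ∀ c ∈ r0, ∃ k, io ξ k = c) → ∃ (ρ : ℕ → Option K) (t0 : T),
    (∀ c ∈ r0, ∃ k, ρ k = some c) ∧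
    ∀ b : Set K, b.Countable → ∃ ξ, ξ ∉ b ∧ t ξ = t0 ∧
      ∀ k, ρ k = some (io ξ k) ∨ (ρ k = none ∧ io ξ k ∉ b)

/-- Cardinality of the set of types. -/
def G_CAR : Prop := #((ℕ → Mp) × (ℕ → {B : Set (ℕ → Rl) // MeasurableSet B})) ≤ 𝔠

/-! ### The sigma-algebra -/

/-- The homogeneous family of conditions reading the given sequence of sets at the generic reals.
`io ξ` enumerates the coordinates used for `ξ`, `S` is the family, `r` the root. -/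
structure Dat {K : Type} (w : K → ℕ → RO (Cnd K)) (p : Cnd K) where
  q : K → Cnd K
  io : K → ℕ → K
  B : ℕ → Set (ℕ → Rl)
  P : Mp
  S : Set K
  r : Set K
  pr : Cnd K
  hB : ∀ n, MeasurableSet (B n)
  hr : r.Countable
  hq : ∀ ξ ∈ S, ∀ n, q ξ ∈ NU.iffV (w ξ n) (ee {z | (fun k => z (io ξ k)) ∈ B n})
  hP : ∀ ξ ∈ S, (q ξ).m ξ = P
  hs : ∀ ξ ∈ S, ∀ c, (q ξ).m c ≠ 1 → ∃ k, io ξ k = c
  hpr : ∀ ξ ∈ S, ∀ c ∈ r, (q ξ).m c = pr.m c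
  hpr' : ∀ c, c ∉ r → pr.m c = 1
  hp : pr ≤ p
  hS : ∀ b : Set K, b.Countable → ∃ ξ ∈ S, ξ ∉ b ∧ ∀ k, io ξ k ∈ b → io ξ k ∈ r

/-- The members of the family which meet `b` only in the root. -/
def Dat.Sb {K : Type} {w : K → ℕ → RO (Cnd K)} {p : Cnd K} (d : Dat w p) (b : Set K) : Set K :=
  {ξ | ξ ∈ d.S ∧ ∀ k, d.io ξ k ∈ b → d.io ξ k ∈ d.r}

/-- The value of: the set is in the sigma-algebra. -/
def Dat.sv {K : Type} {w : K → ℕ → RO (Cnd K)} {p : Cnd K} (d : Dat w p)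
    (v : K → RO (Cnd K)) : RO (Cnd K) :=
  ⨆ b : Set K, ⨆ _ : b.Countable, ⨆ B : Set ((K → Rl) × (ℕ → Rl)), ⨆ _ : MeasurableSet B,
    ⨅ ξ : K, ⨅ _ : ξ ∈ d.Sb b,
      (pri (d.q ξ) ⇨ NU.iffV (v ξ) (ee {z | (z, fun k => z (d.io ξ k)) ∈ B}))

/-- The family exists. -/
def G_DAT : Prop := ∀ (K : Type), #K = Order.succ 𝔠 → ∀ (w : K → ℕ → RO (Cnd K)) (p : Cnd K),
  Nonempty (Dat w p)

/-- The value `sv` is extensional, the given sets are in the sigma-algebra, complements. -/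
def G_SVE : Prop := ∀ (K : Type) [Nonempty K] (w : K → ℕ → RO (Cnd K)) (p : Cnd K)
  (d : Dat w p),
  (∀ v v' : K → RO (Cnd K), (⨅ ξ, NU.iffV (v ξ) (v' ξ)) ⊓ d.sv v ≤ d.sv v') ∧
  (∀ n, d.sv (fun ξ => w ξ n) = ⊤) ∧ (∀ v, d.sv v ≤ d.sv (fun ξ => (v ξ)ᶜ))

/-- Countable unions. -/
def G_SVU : Prop := ∀ (K : Type) [Nonempty K] (w : K → ℕ → RO (Cnd K)) (p : Cnd K)
  (d : Dat w p) (v : ℕ → K → RO (Cnd K)), (⨅ n, d.sv (v n)) ≤ d.sv (fun ξ => ⨆ n, v n ξ)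

/-- Some analytic set is not in the sigma-algebra. -/
def G_SVA : Prop := ∀ (K : Type) [Infinite K] (w : K → ℕ → RO (Cnd K)) (p : Cnd K)
  (d : Dat w p), ∃ T : Cd, d.pr ∈ (d.sv (fun ξ => anV T (gx ξ)))ᶜ

/-- The result of part I. -/
def G_VS : Prop := ∀ (K : Type), #K = Order.succ 𝔠 → ∀ (w : K → ℕ → RO (Cnd K)) (p : Cnd K),
  ∃ q, q ≤ p ∧ ∃ (T : Cd) (sv : (K → RO (Cnd K)) → RO (Cnd K)), SigV w sv ∧
    q ∈ (sv (fun ξ => anV T (gx ξ)))ᶜ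

/-- Assembly of part I. -/
theorem vs (dat : G_DAT) (sve : G_SVE) (svu : G_SVU) (sva : G_SVA) : G_VS := by
  intro K hK w p
  have hinf : Infinite K := by
    rw [Cardinal.infinite_iff, hK]
    exact Cardinal.aleph0_le_continuum.trans (Order.le_succ _)
  obtain ⟨d⟩ := dat K hK w p
  obtain ⟨T, hT⟩ := sva K w p d
  obtain ⟨h1, h2, h3⟩ := sve K w p d
  exact ⟨d.pr, d.hp, T, d.sv, ⟨h1, h2, h3, svu K w p d⟩, hT⟩

end SA
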