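import Pool.Agent.Helper79.SA.NGoals
import Pool.Agent.Helper46.FL.Lib

/-! # MP_4137ca_lc: assembly -/

namespace SA

open Pool.Agent.Helper97.Ku NU
open scoped Cardinal

/-- From the forcing to the model. -/
theorem main (vs : G_VS) (val : N_VAL) (syn : N_SYN) :
    ∃ (N : Type 1) (E : N → N → Prop), IsZFC N E ∧ NoGen E := by
  let K : Type := (Order.succ 𝔠 : Cardinal.{0}).out
  have hK : #K = Order.succ 𝔠 := Cardinal.mk_out _
  have hH : HypL (RO (Cnd K)) K gx := by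
    intro w c hc
    have h1 : ∃ p, p ∈ c := by
      by_contra h2
      push Not at h2
      exact hc (le_bot_iff.mp fun p hp => absurd hp (h2 p))
    obtain ⟨p, hp⟩ := h1
    obtain ⟨q, hq, T, sv, h3, h4⟩ := vs K hK w p
    refine ⟨T, sv, h3, fun h5 => ?_⟩
    have h6 : q ∈ c ⊓ (sv (fun ξ => anV T (gx ξ)))ᶜ := ⟨RO.lower hq hp, h4⟩
    rw [h5] at h6
    exact RO.not_mem_bot q h6
  have h1 : noGenV (RO (Cnd K)) = ⊤ := val _ K gx hH
  obtain ⟨φ, h2, h3⟩ := syn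
  have h4 : φ.val (fun _ => (omN : BSet (RO (Cnd K)))) ≠ ⊥ := by
    rw [h3]
    change noGenV (RO (Cnd K)) ≠ ⊥
    rw [h1]
    intro h5
    have h6 : (1 : Cnd K) ∈ (⊤ : RO (Cnd K)) := RO.mem_top _
    rw [h5] at h6
    exact RO.not_mem_bot _ h6
  obtain ⟨N, E, v, hZ, hv⟩ := Pool.Agent.Helper46.FL.con (RO (Cnd K)) φ _ h4
  exact ⟨N, E, hZ, (h2 N E v).1 hv⟩

end SA
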