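import Pool.Agent.Helper79.SA.NModel
import Pool.Agent.Helper79.SA.Goals

/-!
# MP_4137ca_lc: goals of part II (names)
-/

noncomputable section

namespace SA

open Pool.Agent.Helper97.Ku NU
open scoped Cardinal

/-- Names of reals. -/
def N_RN : Prop := ∀ (L : Type) [CompleteBooleanAlgebra L],
  (∀ (a : ℕ → L) (n : ℕ), (nn n).mem (rn a) = a n) ∧
  (∀ a : ℕ → L, subV (rn a) omN = ⊤) ∧
  (∀ x : BSet L, subV x omN ≤ x.eq (rn (fun n => (nn n).mem x))) ∧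
  (∀ (a : ℕ → L) (t : Finset ℕ) (m : ℕ), agbV (nn m) (fsN t) (rn a) = agr a t m)

/-- Names of sets of reals. -/
def N_ST : Prop := ∀ (L : Type) [CompleteBooleanAlgebra L] (φ : BSet L → L), BSet.Ext φ →
  (∀ x, φ x ≤ subV x omN) → ∀ x : BSet L, x.mem (stN (fun a => φ (rn a))) = φ x

/-- Names of families of sets of reals. -/
def N_FA : Prop := ∀ (L : Type) [CompleteBooleanAlgebra L] (ψ : BSet L → L), BSet.Ext ψ →
  ∀ Z : BSet L, Z.mem (faN (fun z => ψ (stN z))) = realsV omN Z ⊓ ψ Z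

/-- The predicates are extensional. -/
def N_EX : Prop := ∀ (L : Type) [CompleteBooleanAlgebra L],
  (∀ T m y : BSet L, BSet.Ext (fun x => hitV T m x y)) ∧
  (∀ T m x : BSet L, BSet.Ext (fun y => hitV T m x y)) ∧
  (∀ T x y : BSet L, BSet.Ext (fun m => hitV T m x y)) ∧
  (∀ o T y : BSet L, BSet.Ext (fun x => inGV o T x y)) ∧
  (∀ o T x : BSet L, BSet.Ext (fun y => inGV o T x y)) ∧
  (∀ o S K : BSet L, BSet.Ext (fun n => ⨆ Z : BSet L, (Z.mem S ⊓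
    ⨅ c : BSet L, iffV (apV K n c) (c.eq Z)))) ∧
  (∀ K n : BSet L, BSet.Ext (fun Z => ⨅ c : BSet L, iffV (apV K n c) (c.eq Z))) ∧
  (∀ o H S : BSet L, BSet.Ext (fun n => ⨆ Z : BSet L, (Z.mem S ⊓ isSecV o H n Z)))

/-- Boolean value of membership in a coded `G_δ` set. -/
def N_HIT : Prop := ∀ (L : Type) [CompleteBooleanAlgebra L] (T : Cd) (m : ℕ) (a b : ℕ → L),
  hitV (tcN T) (nn m) (rn a) (rn b) = ⨆ s : Finset ℕ, ⨆ t : Finset ℕ,
    ⨆ _ : (s, t) ∈ T ∧ NU.LastN s m ∧ NU.LastN t m, (agr a s m ⊓ agr b t m)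

def N_ING : Prop := ∀ (L : Type) [CompleteBooleanAlgebra L] (T : Cd) (a b : ℕ → L),
  inGV omN (tcN T) (rn a) (rn b) = gtV T a b

/-- The name of the coded analytic set. -/
def N_AN : Prop := ∀ (L : Type) [CompleteBooleanAlgebra L] (T : Cd),
  isAnV omN (tcN T) (stN (anV T) : BSet L) = ⊤ ∧ realsV omN (stN (anV T) : BSet L) = ⊤ ∧
  ∀ a : ℕ → L, (rn a).mem (stN (anV T)) = anV T a

/-- Membership in the sigma-algebra. -/
def N_SG : Prop := ∀ (L : Type) [CompleteBooleanAlgebra L] (K : Type) (x w : K → ℕ → L)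
  (sv : (K → L) → L), SigV w sv → ∀ Z : BSet L,
    Z.mem (sgN x sv) = realsV omN Z ⊓ sv (fun ξ => (rn (x ξ)).mem Z)

/-- Complements. -/
def N_CP : Prop := ∀ (L : Type) [CompleteBooleanAlgebra L] (K : Type) (x w : K → ℕ → L)
  (sv : (K → L) → L), SigV w sv →
  (⨅ Z : BSet L, (Z.mem (sgN x sv) ⇨ ⨅ t : BSet L, (t.mem Z ⇨ subV t omN))) = ⊤ ∧
  (⨅ Z : BSet L, (Z.mem (sgN x sv) ⇨
    ⨆ Z' : BSet L, (Z'.mem (sgN x sv) ⊓ isCplV omN Z Z'))) = ⊤

/-- Unions. -/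
def N_UN : Prop := ∀ (L : Type) [CompleteBooleanAlgebra L] (K : Type) (x w : K → ℕ → L)
  (sv : (K → L) → L), SigV w sv →
  (⨅ F : BSet L, (isSqV omN (sgN x sv) F ⇨
    ⨆ U : BSet L, (U.mem (sgN x sv) ⊓ isUnV omN F U))) = ⊤

/-- The given sets. -/
def N_SE : Prop := ∀ (L : Type) [CompleteBooleanAlgebra L] (K : Type) (x : K → ℕ → L)
  (H : BSet L) (sv : (K → L) → L), SigV (fun ξ n => apV H (nn n) (rn (x ξ))) sv →
  allSecV omN H (sgN x sv) = ⊤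

/-- What part I gives. -/
def HypL (L : Type) [CompleteBooleanAlgebra L] (K : Type) (x : K → ℕ → L) : Prop :=
  ∀ (w : K → ℕ → L) (c : L), c ≠ ⊥ → ∃ (T : Cd) (sv : (K → L) → L), SigV w sv ∧
    c ⊓ (sv (fun ξ => anV T (x ξ)))ᶜ ≠ ⊥

/-- The Boolean value of the statement. -/
def N_VAL : Prop := ∀ (L : Type) [CompleteBooleanAlgebra L] (K : Type) (x : K → ℕ → L),
  HypL L K x → noGenV L = ⊤

/-- The formula. -/
def N_SYN : Prop := Dfn (fun N E _ => NoGen E) (fun L _ _ => noGenV L)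

end SA
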