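import Pool.Agent.Helper46.NU.Names
import Pool.Agent.Helper79.SA.Defs

/-!
# MP_4137ca_lc: the statement about models of ZFC, and its Boolean-valued version

`NoGen E` says that in the structure `(N, E)` the following holds: for every sequence `A n` of sets
of reals (= subsets of `ω`) there is an analytic set of reals which does not belong to the
sigma-algebra generated by the sets `A n`.
-/

noncomputable section

namespace SA

open Pool.Agent.Helper97.Ku NU

section Model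

variable {N : Type 1} (E : N → N → Prop)

/-- For some pair `(s, t) ∈ T` of finite sets with the same largest element `m` the reals `x`, `y`
agree below `m` with `s`, `t`. -/
def HitE (T m x y : N) : Prop :=
  ∃ s t z, IsPr E z s t ∧ E z T ∧ Lst E s m ∧ Lst E t m ∧ AgB E m s x ∧ AgB E m t y

/-- `(x, y)` belongs to the `G_δ` set coded by `T` (`o` is `ω`). -/
def InG (o T x y : N) : Prop := ∀ n, E n o → ∃ m, E m o ∧ E n m ∧ HitE E T m x y

/-- `A` is the analytic set coded by `T`: the projection of the `G_δ` set coded by `T`. -/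
def IsAn (o T A : N) : Prop :=
  ∀ x, E x A ↔ (Sub E x o ∧ ∃ y, Sub E y o ∧ InG E o T x y)

/-- `Z'` is the complement of `Z` in the set of all reals. -/
def IsCpl (o Z Z' : N) : Prop := ∀ x, E x Z' ↔ (Sub E x o ∧ ¬ E x Z)

/-- `K` is a sequence (a function on `ω`) of elements of `S`. -/
def IsSq (o S K : N) : Prop := ∀ n, E n o → ∃ Z, E Z S ∧ ∀ c, Ap E K n c ↔ c = Z

/-- `U` is the union of the terms of the sequence `K`. -/
def IsUn (o K U : N) : Prop := ∀ x, E x U ↔ ∃ n, E n o ∧ ∃ Z, Ap E K n Z ∧ E x Z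

/-- `S` is a sigma-algebra of sets of reals. -/
structure SAlg (o S : N) : Prop where
  sub : ∀ Z, E Z S → ∀ x, E x Z → Sub E x o
  cpl : ∀ Z, E Z S → ∃ Z', E Z' S ∧ IsCpl E o Z Z'
  un : ∀ K, IsSq E o S K → ∃ U, E U S ∧ IsUn E o K U

/-- `Z` is the `n`-th set of the sequence of sets of reals given by `H`: the set of all reals `x`
with `(n, x) ∈ H`. -/
def IsSec (o H n Z : N) : Prop := ∀ x, E x Z ↔ (Sub E x o ∧ Ap E H n x)

/-- For every sequence of sets of reals (given by a set `H` of pairs) there are an analytic set `A`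
and a sigma-algebra `S` such that all sets of the sequence belong to `S` and `A` does not. -/
def NoGen : Prop := ∃ o, IsOmega E o ∧ ∀ H, ∃ T A S, IsAn E o T A ∧ SAlg E o S ∧
  (∀ n, E n o → ∃ Z, E Z S ∧ IsSec E o H n Z) ∧ ¬ E A S

end Model

section Val

variable {L : Type} [CompleteBooleanAlgebra L]

def hitV (T m x y : BSet L) : L :=
  ⨆ s : BSet L, ⨆ t : BSet L, ⨆ z : BSet L,
    (prV z s t ⊓ (z.mem T ⊓ (lstV s m ⊓ (lstV t m ⊓ (agbV m s x ⊓ agbV m t y)))))

def inGV (o T x y : BSet L) : L :=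
  ⨅ n : BSet L, (n.mem o ⇨ ⨆ m : BSet L, (m.mem o ⊓ (n.mem m ⊓ hitV T m x y)))

def isAnV (o T A : BSet L) : L :=
  ⨅ x : BSet L, iffV (x.mem A) (subV x o ⊓ ⨆ y : BSet L, (subV y o ⊓ inGV o T x y))

def isCplV (o Z Z' : BSet L) : L := ⨅ x : BSet L, iffV (x.mem Z') (subV x o ⊓ (x.mem Z)ᶜ)

def isSqV (o S K : BSet L) : L :=
  ⨅ n : BSet L, (n.mem o ⇨ ⨆ Z : BSet L, (Z.mem S ⊓ ⨅ c : BSet L, iffV (apV K n c) (c.eq Z)))

def isUnV (o K U : BSet L) : L :=
  ⨅ x : BSet L, iffV (x.mem U)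
    (⨆ n : BSet L, (n.mem o ⊓ ⨆ Z : BSet L, (apV K n Z ⊓ x.mem Z)))

def sAlgV (o S : BSet L) : L :=
  (⨅ Z : BSet L, (Z.mem S ⇨ ⨅ x : BSet L, (x.mem Z ⇨ subV x o))) ⊓
  ((⨅ Z : BSet L, (Z.mem S ⇨ ⨆ Z' : BSet L, (Z'.mem S ⊓ isCplV o Z Z'))) ⊓
  (⨅ K : BSet L, (isSqV o S K ⇨ ⨆ U : BSet L, (U.mem S ⊓ isUnV o K U))))

def isSecV (o H n Z : BSet L) : L := ⨅ x : BSet L, iffV (x.mem Z) (subV x o ⊓ apV H n x)

/-- All sets of the sequence `H` belong to `S`. -/
def allSecV (o H S : BSet L) : L :=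
  ⨅ n : BSet L, (n.mem o ⇨ ⨆ Z : BSet L, (Z.mem S ⊓ isSecV o H n Z))

def noGenV (L : Type) [CompleteBooleanAlgebra L] : L :=
  ⨆ o : BSet L, (omegaV o ⊓ ⨅ H : BSet L, ⨆ T : BSet L, ⨆ A : BSet L, ⨆ S : BSet L,
    (isAnV o T A ⊓ (sAlgV o S ⊓ (allSecV o H S ⊓ (A.mem S)ᶜ))))

/-- The name of the real with the Boolean values `a`. -/
def rn (a : ℕ → L) : BSet L := BSet.mk ℕ nn a

/-- The name of a set of reals. -/
def stN (Z : (ℕ → L) → L) : BSet L := BSet.mk (ℕ → L) rn Z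

/-- The name of a family of sets of reals. -/
def faN (Φ : ((ℕ → L) → L) → L) : BSet L := BSet.mk ((ℕ → L) → L) stN Φ

/-- The name of a code. -/
def tcN (T : Cd) : BSet L :=
  BSet.mk {z : Finset ℕ × Finset ℕ // z ∈ T} (fun z => kpr (fsN z.1.1) (fsN z.1.2)) (fun _ => ⊤)

/-- The name of the sigma-algebra: the sets of reals `Z` for which `sv` takes the value true at
the Boolean values of `x ξ ∈ Z`. -/
def sgN {K : Type} (x : K → ℕ → L) (sv : (K → L) → L) : BSet L :=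
  faN (fun z => sv (fun ξ => (rn (x ξ)).mem (stN z)))

end Val

end SA
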